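import Pool.Agent.Q181.WI.Transport

/-! A weakly integrable 3-manifold in 6-space that is not a complete intersection. -/

set_option autoImplicit false

open Set Metric Filter Topology
open scoped ContDiff

namespace Q181.WI

abbrev E3 : Type := EuclideanSpace ℝ (Fin 3)

/-- The negative of the inversion in the unit sphere. -/
noncomputable def inv3 (x : E3) : E3 := -((‖x‖ ^ 2)⁻¹ • x)

theorem norm_sq_ne {x : E3} (hx : x ≠ 0) : ‖x‖ ^ 2 ≠ 0 := pow_ne_zero 2 (norm_ne_zero_iff.2 hx)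

theorem inv3_ne {x : E3} (hx : x ≠ 0) : inv3 x ≠ 0 := by
  rw [inv3, neg_ne_zero]
  exact smul_ne_zero (inv_ne_zero (norm_sq_ne hx)) hx

theorem norm_inv3 {x : E3} (hx : x ≠ 0) : ‖inv3 x‖ = ‖x‖⁻¹ := by
  have h := norm_ne_zero_iff.2 hx
  rw [inv3, norm_neg, norm_smul, norm_inv, norm_pow, norm_norm]
  field_simp

theorem inv3_inv3 {x : E3} (hx : x ≠ 0) : inv3 (inv3 x) = x := by
  have h := norm_ne_zero_iff.2 hx
  have h1 : inv3 (inv3 x) = -((‖inv3 x‖ ^ 2)⁻¹ • inv3 x) := rfl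
  rw [h1, norm_inv3 hx, inv3, smul_neg, neg_neg, smul_smul]
  have : ((‖x‖⁻¹ ^ 2)⁻¹ * (‖x‖ ^ 2)⁻¹ : ℝ) = 1 := by
    field_simp
  rw [this, one_smul]

theorem contDiffAt_inv3 {x : E3} (hx : x ≠ 0) : ContDiffAt ℝ ∞ inv3 x := by
  unfold inv3
  have h1 : ContDiffAt ℝ ∞ (fun x : E3 => (‖x‖ ^ 2)⁻¹) x :=
    ((contDiff_norm_sq ℝ).contDiffAt).inv (norm_sq_ne hx)
  exact (h1.smul contDiffAt_id).neg

theorem differentiableAt_inv3 {x : E3} (hx : x ≠ 0) : DifferentiableAt ℝ inv3 x :=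
  (contDiffAt_inv3 hx).differentiableAt (by simp)

/-- The derivative of the inversion is injective. -/
theorem fderiv_inv3_injective {x : E3} (hx : x ≠ 0) {v : E3} (hv : fderiv ℝ inv3 x v = 0) :
    v = 0 := by
  have h1 : HasFDerivAt (inv3 ∘ inv3) ((fderiv ℝ inv3 (inv3 x)).comp (fderiv ℝ inv3 x)) x :=
    (differentiableAt_inv3 (inv3_ne hx)).hasFDerivAt.comp x (differentiableAt_inv3 hx).hasFDerivAt
  have h2 : (inv3 ∘ inv3) =ᶠ[𝓝 x] id := by
    filter_upwards [isOpen_ne.mem_nhds hx] with y hy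
    exact inv3_inv3 hy
  have h3 := (h1.congr_of_eventuallyEq h2.symm).unique (hasFDerivAt_id x)
  have h4 := DFunLike.congr_fun h3 v
  simp only [ContinuousLinearMap.comp_apply, hv, map_zero, ContinuousLinearMap.id_apply] at h4
  exact h4.symm

section noCI

variable (Ξ : E3 × E3 → E3) (hΞ : ContDiff ℝ 1 Ξ)
  (hzero : ∀ x w, Ξ (x, w) = 0 ↔ x ≠ 0 ∧ w = inv3 x)
  (hreg : ∀ p, Ξ p = 0 → Function.Surjective (fderiv ℝ Ξ p))

include hΞ hzero hreg

/-- The kernel of the derivative at a point of the zero set is the tangent space. -/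
theorem kernel {x : E3} (hx : x ≠ 0) {p : E3 × E3} (hp : fderiv ℝ Ξ (x, inv3 x) p = 0) :
    ∃ v, p = (v, fderiv ℝ inv3 x v) := by
  have h0 : Ξ (x, inv3 x) = 0 := (hzero x (inv3 x)).2 ⟨hx, rfl⟩
  -- the tangent space is contained in the kernel
  have hd := (differentiableAt_inv3 hx).hasFDerivAt
  let ι : E3 →L[ℝ] E3 × E3 := (ContinuousLinearMap.id ℝ E3).prod (fderiv ℝ inv3 x)
  have h1 : HasFDerivAt (fun y : E3 => (y, inv3 y)) ι x := (hasFDerivAt_id x).prodMk hd
  have h2 : HasFDerivAt Ξ (fderiv ℝ Ξ (x, inv3 x)) (x, inv3 x) :=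
    (hΞ.differentiable one_ne_zero _).hasFDerivAt
  have h3 : HasFDerivAt (Ξ ∘ fun y : E3 => (y, inv3 y)) ((fderiv ℝ Ξ (x, inv3 x)).comp ι) x :=
    h2.comp x h1
  have h4 : (Ξ ∘ fun y : E3 => (y, inv3 y)) =ᶠ[𝓝 x] fun _ => 0 := by
    filter_upwards [isOpen_ne.mem_nhds hx] with y hy
    exact (hzero y (inv3 y)).2 ⟨hy, rfl⟩
  have h5 := (h3.congr_of_eventuallyEq h4.symm).unique (hasFDerivAt_const (0 : E3) x)
  -- dimension count
  let f : E3 × E3 →ₗ[ℝ] E3 := (fderiv ℝ Ξ (x, inv3 x) : E3 × E3 →L[ℝ] E3)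
  let g : E3 →ₗ[ℝ] E3 × E3 := (ι : E3 →L[ℝ] E3 × E3)
  have hle : LinearMap.range g ≤ LinearMap.ker f := by
    rintro _ ⟨v, rfl⟩
    rw [LinearMap.mem_ker]
    exact DFunLike.congr_fun h5 v
  have hginj : Function.Injective g := by
    intro v w h
    exact congrArg Prod.fst h
  have hfr : Module.finrank ℝ (LinearMap.ker f) = 3 := by
    have h6 := LinearMap.finrank_range_add_finrank_ker f
    have h7 : LinearMap.range f = ⊤ := LinearMap.range_eq_top.2 (hreg _ h0)
    rw [h7, finrank_top] at h6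
    simp at h6
    omega
  have hgr : Module.finrank ℝ (LinearMap.range g) = 3 := by
    rw [LinearMap.finrank_range_of_inj hginj]
    simp
  have heq : LinearMap.range g = LinearMap.ker f :=
    Submodule.eq_of_le_of_finrank_eq hle (by rw [hgr, hfr])
  have h8 : p ∈ LinearMap.ker f := LinearMap.mem_ker.2 hp
  rw [← heq] at h8
  obtain ⟨v, rfl⟩ := h8
  exact ⟨v, rfl⟩

theorem partial_snd {x w : E3} (hx : x ≠ 0) (hw : fderiv ℝ Ξ (x, inv3 x) (0, w) = 0) : w = 0 := by
  obtain ⟨v, hv⟩ := kernel Ξ hΞ hzero hreg hx hw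
  have h1 : (0 : E3) = v := congrArg Prod.fst hv
  have h2 : w = fderiv ℝ inv3 x v := congrArg Prod.snd hv
  rw [h2, ← h1, map_zero]

theorem partial_fst {x v : E3} (hx : x ≠ 0) (hv : fderiv ℝ Ξ (x, inv3 x) (v, 0) = 0) : v = 0 := by
  obtain ⟨u, hu⟩ := kernel Ξ hΞ hzero hreg hx hv
  have h1 : v = u := congrArg Prod.fst hu
  have h2 : (0 : E3) = fderiv ℝ inv3 x u := congrArg Prod.snd hu
  rw [h1]
  exact fderiv_inv3_injective hx h2.symm

theorem no_CI : False := by
  have hdiff : Differentiable ℝ Ξ := hΞ.differentiable one_ne_zero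
  have hcont : Continuous Ξ := hΞ.continuous
  have hdc : Continuous (fderiv ℝ Ξ) := hΞ.continuous_fderiv one_ne_zero
  -- two orthogonal vectors of length 2
  let w₀ : E3 := (2 : ℝ) • EuclideanSpace.single 0 1
  let w₁ : E3 := (2 : ℝ) • EuclideanSpace.single 1 1
  have hw₀n : ‖w₀‖ = 2 := by
    rw [norm_smul]; simp
  have hw₀ne : w₀ ≠ 0 := by
    intro h; rw [h, norm_zero] at hw₀n; norm_num at hw₀n
  have hind01 : ∀ c : ℝ, w₁ - c • w₀ ≠ 0 := by
    intro c h
    have h1 := congrArg (fun u : E3 => u 1) h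
    simp [w₀, w₁] at h1
  have hS : ∀ x : sphere (0 : E3) 1, ‖(x : E3)‖ = 1 := fun x => by simpa using x.2
  have hSne : ∀ x : sphere (0 : E3) 1, (x : E3) ≠ 0 := fun x h => by
    have := hS x
    rw [h, norm_zero] at this
    norm_num at this
  have hinvS : ∀ x : sphere (0 : E3) 1, inv3 (x : E3) = -(x : E3) := fun x => by
    rw [inv3, hS x]; simp
  have hadd : ∀ (x : sphere (0 : E3) 1) (τ : ℝ), 0 ≤ τ → τ ≤ 1 → w₀ + τ • (x : E3) ≠ 0 := by
    intro x τ h0 h1 h
    have h2 : w₀ = -(τ • (x : E3)) := eq_neg_of_add_eq_zero_left h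
    have h3 := congrArg norm h2
    rw [hw₀n, norm_neg, norm_smul, hS x, mul_one, Real.norm_of_nonneg h0] at h3
    linarith
  -- the derivative in the second factor at `(x, -x)`
  let B : sphere (0 : E3) 1 → E3 → E3 := fun x u => fderiv ℝ Ξ ((x : E3), -(x : E3)) (0, u)
  have hBne : ∀ x u, u ≠ 0 → B x u ≠ 0 := by
    intro x u hu h
    apply hu
    apply partial_snd Ξ hΞ hzero hreg (hSne x)
    rw [hinvS x]
    exact h
  have hBadd : ∀ x u u', B x (u + u') = B x u + B x u' := by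
    intro x u u'
    show fderiv ℝ Ξ _ (0, u + u') = fderiv ℝ Ξ _ (0, u) + fderiv ℝ Ξ _ (0, u')
    rw [← map_add]
    congr 1
    ext <;> simp
  have hBsmul : ∀ x (c : ℝ) u, B x (c • u) = c • B x u := by
    intro x c u
    show fderiv ℝ Ξ _ (0, c • u) = c • fderiv ℝ Ξ _ (0, u)
    rw [← map_smul]
    congr 1
    ext <;> simp
  have hBc : ∀ {Y : Type} [TopologicalSpace Y] (p : Y → sphere (0 : E3) 1) (u : Y → E3),
      Continuous p → Continuous u → Continuous fun y => B (p y) (u y) := by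
    intro Y _ p u hp hu
    have h1 : Continuous fun y => (((p y : E3), -(p y : E3)) : E3 × E3) := by fun_prop
    have h2 : Continuous fun y => ((0, u y) : E3 × E3) := by fun_prop
    exact (hdc.comp h1).clm_apply h2
  -- the other zero
  let x₀ : E3 := inv3 w₀
  have hx₀ne : x₀ ≠ 0 := inv3_ne hw₀ne
  have hx₀n : ‖x₀‖ = 1 / 2 := by
    rw [norm_inv3 hw₀ne, hw₀n]; norm_num
  have hx₀i : inv3 x₀ = w₀ := inv3_inv3 hw₀ne
  have hzero2 : ∀ x, Ξ (x, w₀) = 0 ↔ x = x₀ := by
    intro x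
    rw [hzero]
    constructor
    · rintro ⟨h1, h2⟩
      show x = inv3 w₀
      rw [h2, inv3_inv3 h1]
    · rintro rfl
      exact ⟨hx₀ne, hx₀i.symm⟩
  have hsub : ∀ (x : sphere (0 : E3) 1) (τ : ℝ), 0 ≤ τ → τ ≤ 1 → (x : E3) - τ • x₀ ≠ 0 := by
    intro x τ h0 h1 h
    have h3 := congrArg norm (sub_eq_zero.1 h)
    rw [hS x, norm_smul, hx₀n, Real.norm_of_nonneg h0] at h3
    linarith
  let C : E3 → E3 := fun u => fderiv ℝ Ξ (x₀, w₀) (u, 0)
  have hCne : ∀ u, u ≠ 0 → C u ≠ 0 := by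
    intro u hu h
    apply hu
    apply partial_fst Ξ hΞ hzero hreg hx₀ne
    rw [hx₀i]
    exact h
  have hCc : Continuous C := by
    show Continuous fun u : E3 => fderiv ℝ Ξ (x₀, w₀) (u, 0)
    fun_prop
  -- Step 1
  obtain ⟨v1, hv1c, hv1⟩ := transport (X := sphere (0 : E3) 1)
    (fun p => B p.2 (w₀ + (1 - (p.1 : ℝ)) • (p.2 : E3)))
    (hBc (fun p : unitInterval × sphere (0 : E3) 1 => p.2) _ continuous_snd (by fun_prop))
    (fun p => hBne _ _ (hadd p.2 _ (by linarith [p.1.2.2]) (by linarith [p.1.2.1])))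
    (fun x => B x w₁) (hBc _ _ continuous_id continuous_const) (by
      intro x c h
      simp only [Set.Icc.coe_one, sub_self, zero_smul, add_zero] at h
      apply hBne x (w₁ - c • w₀) (hind01 c)
      have h1 : w₁ - c • w₀ = w₁ + (-c) • w₀ := by rw [neg_smul, sub_eq_add_neg]
      rw [h1, hBadd, hBsmul x (-c) w₀, h, neg_smul, add_neg_cancel])
  simp only [Set.Icc.coe_zero, sub_zero, one_smul] at hv1
  -- Step 2
  obtain ⟨K, hKc, hK0, hKt⟩ := exists_quotient (X := sphere (0 : E3) 1) Ξ hΞ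
    (fun x => ((x : E3), -(x : E3))) (fun x => ((0 : E3), w₀ + (x : E3))) (by fun_prop)
    (by fun_prop) (fun x => (hzero _ _).2 ⟨hSne x, (hinvS x).symm⟩)
  have hKne : ∀ p, K p ≠ 0 := by
    rintro ⟨t, x⟩ h
    have hwx : w₀ + (x : E3) ≠ 0 := by
      have := hadd x 1 zero_le_one le_rfl
      rwa [one_smul] at this
    by_cases ht : (t : ℝ) = 0
    · have ht' : t = 0 := Subtype.ext ht
      subst ht'
      rw [hK0] at h
      exact hBne x _ hwx h
    · have h1 := hKt t x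
      rw [h, smul_zero] at h1
      have h2 := h1.symm
      have h3 : ((x : E3), -(x : E3)) + (t : ℝ) • ((0 : E3), w₀ + (x : E3)) =
          ((x : E3), -(x : E3) + (t : ℝ) • (w₀ + (x : E3))) := by
        ext <;> simp
      rw [h3, hzero] at h2
      have h4 := h2.2
      rw [hinvS x] at h4
      have h5 : (t : ℝ) • (w₀ + (x : E3)) = 0 := add_eq_left.1 h4
      rcases smul_eq_zero.1 h5 with h6 | h6
      · exact ht h6
      · exact hwx h6
  have hK1 : ∀ x, K (1, x) = Ξ ((x : E3), w₀) := by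
    intro x
    have h1 := hKt 1 x
    simp only [Set.Icc.coe_one, one_smul] at h1
    rw [h1]
    congr 1
    ext <;> simp
  obtain ⟨v2, hv2c, hv2⟩ := transport (X := sphere (0 : E3) 1)
    (fun p => K (unitInterval.symm p.1, p.2)) (hKc.comp (by fun_prop)) (fun p => hKne _) v1 hv1c
    (by
      intro x c
      simp only [unitInterval.symm_one, hK0]
      exact hv1 x c)
  simp only [unitInterval.symm_zero, hK1] at hv2
  -- Step 3
  obtain ⟨K', hKc', hK0', hKt'⟩ := exists_quotient (X := sphere (0 : E3) 1) Ξ hΞ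
    (fun _ => (x₀, w₀)) (fun x => ((x : E3) - x₀, (0 : E3))) (by fun_prop)
    (by fun_prop) (fun x => (hzero2 _).2 rfl)
  have hxx : ∀ x : sphere (0 : E3) 1, (x : E3) - x₀ ≠ 0 := fun x => by
    have := hsub x 1 zero_le_one le_rfl
    rwa [one_smul] at this
  have hKne' : ∀ p, K' p ≠ 0 := by
    rintro ⟨t, x⟩ h
    by_cases ht : (t : ℝ) = 0
    · have ht' : t = 0 := Subtype.ext ht
      subst ht'
      rw [hK0'] at h
      exact hCne _ (hxx x) h
    · have h1 := hKt' t x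
      rw [h, smul_zero] at h1
      have h2 := h1.symm
      have h3 : (x₀, w₀) + (t : ℝ) • ((x : E3) - x₀, (0 : E3)) =
          (x₀ + (t : ℝ) • ((x : E3) - x₀), w₀) := by
        ext <;> simp
      rw [h3, hzero2] at h2
      have h5 : (t : ℝ) • ((x : E3) - x₀) = 0 := by
        rwa [add_eq_left] at h2
      rcases smul_eq_zero.1 h5 with h6 | h6
      · exact ht h6
      · exact hxx x h6
  have hK1' : ∀ x, K' (1, x) = Ξ ((x : E3), w₀) := by
    intro x
    have h1 := hKt' 1 x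
    simp only [Set.Icc.coe_one, one_smul] at h1
    rw [h1]
    congr 1
    ext <;> simp
  obtain ⟨v3, hv3c, hv3⟩ := transport (X := sphere (0 : E3) 1) K' hKc' hKne' v2 hv2c
    (by
      intro x c
      rw [hK1']
      exact hv2 x c)
  simp only [hK0'] at hv3
  -- Step 4
  obtain ⟨v4, hv4c, hv4⟩ := transport (X := sphere (0 : E3) 1)
    (fun p => C ((p.2 : E3) - (p.1 : ℝ) • x₀)) (hCc.comp (by fun_prop))
    (fun p => hCne _ (hsub p.2 _ p.1.2.1 p.1.2.2)) v3 hv3c (by
      intro x c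
      simp only [Set.Icc.coe_one, one_smul]
      exact hv3 x c)
  simp only [Set.Icc.coe_zero, zero_smul, sub_zero] at hv4
  -- invert `C`
  let Cl : E3 →ₗ[ℝ] E3 :=
    ((fderiv ℝ Ξ (x₀, w₀) : E3 × E3 →L[ℝ] E3) : E3 × E3 →ₗ[ℝ] E3).comp (LinearMap.inl ℝ E3 E3)
  have hCl : ∀ u, Cl u = C u := fun u => rfl
  have hClinj : Function.Injective Cl := by
    rw [← LinearMap.ker_eq_bot, LinearMap.ker_eq_bot']
    intro u hu
    by_contra h
    exact hCne u h hu
  let e : E3 ≃ₗ[ℝ] E3 := LinearEquiv.ofInjectiveEndo Cl hClinj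
  have he : ∀ u, e u = C u := fun u => rfl
  let v5 : sphere (0 : E3) 1 → E3 := fun x => e.symm (v4 x)
  have hv5c : Continuous v5 :=
    (LinearMap.continuous_of_finiteDimensional (e.symm : E3 →ₗ[ℝ] E3)).comp hv4c
  have hv5 : ∀ (x : sphere (0 : E3) 1) (c : ℝ), v5 x ≠ c • (x : E3) := by
    intro x c h
    apply hv4 x c
    have h1 : e (v5 x) = v4 x := e.apply_symm_apply _
    rw [← h1, h, map_smul, he]
  -- the tangent field
  refine Pool.Agent.Helper775.Hairy.hairy (fun x => v5 x - inner ℝ (x : E3) (v5 x) • (x : E3))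
    ?_ ?_ ?_
  · have h1 : Continuous fun x : sphere (0 : E3) 1 => inner ℝ (x : E3) (v5 x) :=
      continuous_subtype_val.inner hv5c
    have h2 : Continuous fun x : sphere (0 : E3) 1 => inner ℝ (x : E3) (v5 x) • (x : E3) := by
      fun_prop
    exact hv5c.sub h2
  · intro x h
    exact hv5 x _ (sub_eq_zero.1 h)
  · intro x
    rw [inner_sub_right, inner_smul_right, real_inner_self_eq_norm_sq, hS x]
    ring

end noCI

end Q181.WI
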