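import Pool.Agent.Q181.WI.Main

/-! Weakly integrable submanifolds and complete intersections in Euclidean space. -/

set_option autoImplicit false

open Set Metric Filter Topology
open scoped ContDiff

namespace Q181.WI

/-- Euclidean space. -/
abbrev E (n : ℕ) : Type := EuclideanSpace ℝ (Fin n)

/-- `L` is the image of a one-to-one proper immersion `U → E^n` of an open subset `U` of `E^k`
(a `k`-manifold without boundary); in particular `L` is a `k`-submanifold of `E^n`. -/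
def IsImmersedOpen (n k : ℕ) (L : Set (E n)) : Prop :=
  ∃ (U : Set (E k)) (h : E k → E n), IsOpen U ∧ ContDiffOn ℝ ∞ h U ∧ Set.InjOn h U ∧
    (∀ x ∈ U, Function.Injective (fderiv ℝ h x)) ∧ IsProperMap (fun x : U => h x) ∧ L = h '' U

/-- Weak integrability of a `k`-dimensional `L ⊆ E^(k+m)`: some smooth submersion
`Φ : E^(k+m) → E^m` satisfies `L ⊆ Φ⁻¹(0)`. -/
def WeaklyIntegrable (k m : ℕ) (L : Set (E (k + m))) : Prop :=
  ∃ Φ : E (k + m) → E m, ContDiff ℝ ∞ Φ ∧ (∀ p, Function.Surjective (fderiv ℝ Φ p)) ∧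
    L ⊆ Φ ⁻¹' {0}

/-- Complete intersection: some smooth `Ξ : E^(k+m) → E^m` has `0` as a regular value and
`L = Ξ⁻¹(0)`. -/
def CompleteIntersection (k m : ℕ) (L : Set (E (k + m))) : Prop :=
  ∃ Ξ : E (k + m) → E m, ContDiff ℝ ∞ Ξ ∧ (∀ p, Ξ p = 0 → Function.Surjective (fderiv ℝ Ξ p)) ∧
    L = Ξ ⁻¹' {0}

/-- The submersion. -/
noncomputable def phi0 (p : E3 × E3) : E3 := p.1 + ‖p.1‖ ^ 2 • p.2

theorem contDiff_phi0 : ContDiff ℝ ∞ phi0 := by
  unfold phi0
  have h1 : ContDiff ℝ ∞ fun p : E3 × E3 => ‖p.1‖ ^ 2 := (contDiff_norm_sq ℝ).comp contDiff_fst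
  exact contDiff_fst.add (h1.smul contDiff_snd)

theorem hasFDerivAt_phi0 (p : E3 × E3) : HasFDerivAt phi0
    (ContinuousLinearMap.fst ℝ E3 E3 + (‖p.1‖ ^ 2 • ContinuousLinearMap.snd ℝ E3 E3 +
      ((2 • (innerSL ℝ p.1)).comp (ContinuousLinearMap.fst ℝ E3 E3)).smulRight p.2)) p := by
  have h1 : HasFDerivAt (fun p : E3 × E3 => ‖p.1‖ ^ 2)
      ((2 • (innerSL ℝ p.1)).comp (ContinuousLinearMap.fst ℝ E3 E3)) p :=
    (hasStrictFDerivAt_norm_sq p.1).hasFDerivAt.comp p hasFDerivAt_fst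
  exact hasFDerivAt_fst.add (h1.smul hasFDerivAt_snd)

theorem surjective_phi0 (p : E3 × E3) : Function.Surjective (fderiv ℝ phi0 p) := by
  rw [(hasFDerivAt_phi0 p).fderiv]
  intro y
  by_cases hp : p.1 = 0
  · refine ⟨(y, 0), ?_⟩
    simp [hp]
  · refine ⟨(0, (‖p.1‖ ^ 2)⁻¹ • y), ?_⟩
    simp [smul_smul, norm_ne_zero_iff.2 hp]

theorem phi0_inv3 {x : E3} (hx : x ≠ 0) : phi0 (x, inv3 x) = 0 := by
  show x + ‖x‖ ^ 2 • inv3 x = 0
  rw [inv3, smul_neg, smul_smul, mul_inv_cancel₀ (norm_sq_ne hx), one_smul, add_neg_cancel]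

theorem eq_inv3 {p : E3 × E3} (h1 : phi0 p = 0) (h2 : p.1 ≠ 0) : p.2 = inv3 p.1 := by
  have h3 : ‖p.1‖ ^ 2 • p.2 = -p.1 := by
    rw [eq_neg_iff_add_eq_zero, add_comm]
    exact h1
  have h4 : p.2 = (‖p.1‖ ^ 2)⁻¹ • (‖p.1‖ ^ 2 • p.2) := by
    rw [smul_smul, inv_mul_cancel₀ (norm_sq_ne h2), one_smul]
  rw [h4, h3, inv3, smul_neg]

/-- The graph of the inversion, as a map on the complement of the origin. -/
noncomputable def graphMap (x : {x : E3 // x ≠ 0}) : E3 × E3 := (x, inv3 x)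

theorem continuous_graphMap : Continuous graphMap := by
  refine continuous_subtype_val.prodMk ?_
  rw [continuous_iff_continuousAt]
  intro x
  exact ((differentiableAt_inv3 x.2).continuousAt).comp continuous_subtype_val.continuousAt

theorem isClosedEmbedding_graphMap : IsClosedEmbedding graphMap := by
  refine ⟨?_, ?_⟩
  · apply IsEmbedding.of_comp continuous_graphMap continuous_fst
    exact IsEmbedding.subtypeVal
  · have : Set.range graphMap = {p : E3 × E3 | phi0 p = 0 ∧ inner ℝ p.1 p.2 = (-1 : ℝ)} := by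
      ext p
      constructor
      · rintro ⟨x, rfl⟩
        refine ⟨phi0_inv3 x.2, ?_⟩
        show inner ℝ (x : E3) (inv3 x) = -1
        rw [inv3, inner_neg_right, inner_smul_right, real_inner_self_eq_norm_sq,
          inv_mul_cancel₀ (norm_sq_ne x.2)]
      · rintro ⟨h1, h2⟩
        have h3 : p.1 ≠ 0 := by
          intro h
          rw [h, inner_zero_left] at h2
          norm_num at h2
        exact ⟨⟨p.1, h3⟩, Prod.ext rfl (eq_inv3 h1 h3).symm⟩
    rw [this]
    exact (isClosed_eq contDiff_phi0.continuous continuous_const).inter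
      (isClosed_eq (continuous_fst.inner continuous_snd) continuous_const)

/-- A linear isomorphism. -/
noncomputable def iso : (E3 × E3) ≃L[ℝ] E (3 + 3) :=
  ContinuousLinearEquiv.ofFinrankEq (by simp)

/-- The submanifold. -/
def exL : Set (E (3 + 3)) := (fun x : E3 => iso (x, inv3 x)) '' {x | x ≠ 0}

theorem exL_immersed : IsImmersedOpen (3 + 3) 3 exL := by
  refine ⟨{x | x ≠ 0}, fun x : E3 => iso (x, inv3 x), isOpen_ne, ?_, ?_, ?_, ?_, rfl⟩
  · intro x hx
    exact (iso.contDiff.contDiffAt.comp x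
      (contDiffAt_id.prodMk (contDiffAt_inv3 hx))).contDiffWithinAt
  · intro x _ y _ h
    exact congrArg Prod.fst (iso.injective h)
  · intro x hx
    have h1 : HasFDerivAt (fun y : E3 => (y, inv3 y))
        ((ContinuousLinearMap.id ℝ E3).prod (fderiv ℝ inv3 x)) x :=
      (hasFDerivAt_id x).prodMk (differentiableAt_inv3 hx).hasFDerivAt
    have h2 : HasFDerivAt (fun y : E3 => iso (y, inv3 y))
        ((iso : (E3 × E3) →L[ℝ] E (3 + 3)).comp
          ((ContinuousLinearMap.id ℝ E3).prod (fderiv ℝ inv3 x))) x :=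
      iso.hasFDerivAt.comp x h1
    rw [h2.fderiv]
    intro v w h
    have h3 := iso.injective h
    exact congrArg Prod.fst h3
  · exact (iso.toHomeomorph.isClosedEmbedding.comp isClosedEmbedding_graphMap).isProperMap

theorem exL_wi : WeaklyIntegrable 3 3 exL := by
  refine ⟨fun p => phi0 (iso.symm p), contDiff_phi0.comp iso.symm.contDiff, ?_, ?_⟩
  · intro p
    have h1 : HasFDerivAt (fun p => phi0 (iso.symm p))
        ((fderiv ℝ phi0 (iso.symm p)).comp (iso.symm : E (3 + 3) →L[ℝ] (E3 × E3))) p :=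
      ((hasFDerivAt_phi0 (iso.symm p)).differentiableAt.hasFDerivAt).comp p iso.symm.hasFDerivAt
    rw [h1.fderiv]
    exact (surjective_phi0 _).comp iso.symm.surjective
  · rintro _ ⟨x, hx, rfl⟩
    show phi0 (iso.symm (iso (x, inv3 x))) = 0
    rw [iso.symm_apply_apply]
    exact phi0_inv3 hx

theorem exL_not_ci : ¬ CompleteIntersection 3 3 exL := by
  rintro ⟨Ξ, hΞ, hreg, hL⟩
  have hz : ∀ x w : E3, Ξ (iso (x, w)) = 0 ↔ x ≠ 0 ∧ w = inv3 x := by
    intro x w
    have h1 : Ξ (iso (x, w)) = 0 ↔ iso (x, w) ∈ exL := by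
      rw [hL]
      rfl
    rw [h1]
    constructor
    · rintro ⟨y, hy, h2⟩
      have h3 := iso.injective h2
      have h4 : y = x := congrArg Prod.fst h3
      have h5 : inv3 y = w := congrArg Prod.snd h3
      subst h4
      exact ⟨hy, h5.symm⟩
    · rintro ⟨hx, rfl⟩
      exact ⟨x, hx, rfl⟩
  refine no_CI (fun p => Ξ (iso p)) ((hΞ.of_le (by simp)).comp iso.contDiff) hz ?_
  intro p hp
  have h1 : HasFDerivAt (fun p => Ξ (iso p))
      ((fderiv ℝ Ξ (iso p)).comp (iso : (E3 × E3) →L[ℝ] E (3 + 3))) p :=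
    ((hΞ.differentiable (by simp)) (iso p)).hasFDerivAt.comp p iso.hasFDerivAt
  rw [h1.fderiv]
  exact (hreg _ hp).comp iso.surjective

end Q181.WI
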