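import Pool.Agent.Helper104.HairyBall

/-! Transport of fields of linearly independent vectors along homotopies, and a difference
quotient with parameters. -/

set_option autoImplicit false

open Set Metric Filter Topology

namespace Q181.WI

/-- Transport of a field linearly independent of `F (1, ·)` to one linearly independent of
`F (0, ·)`. -/
theorem transport {X : Type*} [PseudoMetricSpace X] [CompactSpace X] {E : Type*}
    [NormedAddCommGroup E] [InnerProductSpace ℝ E] (F : unitInterval × X → E) (hF : Continuous F)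
    (hne : ∀ p, F p ≠ 0) (v : X → E) (hv : Continuous v)
    (hind : ∀ (x : X) (c : ℝ), v x ≠ c • F (1, x)) :
    ∃ v' : X → E, Continuous v' ∧ ∀ (x : X) (c : ℝ), v' x ≠ c • F (0, x) := by
  -- normalise
  let N : unitInterval × X → E := fun p => ‖F p‖⁻¹ • F p
  have hN : Continuous N := (hF.norm.inv₀ fun p => norm_ne_zero_iff.2 (hne p)).smul hF
  have hN1 : ∀ p, ‖N p‖ = 1 := by
    intro p
    show ‖‖F p‖⁻¹ • F p‖ = 1
    rw [norm_smul, norm_inv, norm_norm]
    exact inv_mul_cancel₀ (norm_ne_zero_iff.2 (hne p))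
  have huc := CompactSpace.uniformContinuous_of_continuous hN
  obtain ⟨δ, hδ, hclose⟩ := Metric.uniformContinuous_iff.1 huc 1 one_pos
  obtain ⟨n, hn⟩ := exists_nat_one_div_lt hδ
  let T : ℝ → unitInterval := Set.projIcc 0 1 zero_le_one
  have hT : ∀ a b : ℝ, dist (T a) (T b) ≤ |a - b| := by
    intro a b
    have := (LipschitzWith.projIcc (zero_le_one (α := ℝ))).dist_le_mul a b
    simpa [Real.dist_eq] using this
  -- one step of the projection
  have hstep : ∀ j : ℕ, j ≤ n + 1 → ∃ w : X → E, Continuous w ∧ ∀ x, w x ≠ 0 ∧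
      inner ℝ (N (T (1 - j / (n + 1)), x)) (w x) = 0 := by
    intro j
    induction j with
    | zero =>
      intro _
      have h1 : T (1 - ((0 : ℕ) : ℝ) / (n + 1)) = 1 := by
        simp only [Nat.cast_zero, zero_div, sub_zero]
        exact Set.projIcc_right (zero_le_one (α := ℝ))
      have hc : Continuous fun x => N (1, x) := hN.comp (by fun_prop)
      refine ⟨fun x => v x - inner ℝ (N (1, x)) (v x) • N (1, x),
        hv.sub ((hc.inner hv).smul hc), fun x => ⟨?_, ?_⟩⟩
      · intro h0
        rw [sub_eq_zero] at h0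
        apply hind x (inner ℝ (N (1, x)) (v x) * ‖F (1, x)‖⁻¹)
        rw [mul_smul]
        exact h0
      · rw [h1, inner_sub_right, inner_smul_right, real_inner_self_eq_norm_sq, hN1]
        ring
    | succ j ih =>
      intro hj
      obtain ⟨w, hw, hw2⟩ := ih (by omega)
      have hc : Continuous fun x => N (T (1 - (j + 1 : ℕ) / (n + 1)), x) := hN.comp (by fun_prop)
      refine ⟨fun x => w x - inner ℝ (N (T (1 - (j + 1 : ℕ) / (n + 1)), x)) (w x) •
        N (T (1 - (j + 1 : ℕ) / (n + 1)), x), hw.sub ((hc.inner hw).smul hc), fun x => ⟨?_, ?_⟩⟩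
      · intro h0
        rw [sub_eq_zero] at h0
        obtain ⟨hwx, hor⟩ := hw2 x
        set a := N (T (1 - (j + 1 : ℕ) / (n + 1)), x) with ha
        set b := N (T (1 - (j : ℕ) / (n + 1)), x) with hb
        have hab : ‖a - b‖ < 1 := by
          rw [← dist_eq_norm]
          apply hclose
          rw [Prod.dist_eq, dist_self, max_eq_left dist_nonneg]
          refine lt_of_le_of_lt (hT _ _) (lt_of_eq_of_lt ?_ hn)
          have : (1 - ((j + 1 : ℕ) : ℝ) / (n + 1)) - (1 - (j : ℝ) / (n + 1)) =
              -(1 / ((n : ℝ) + 1)) := by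
            push_cast
            field_simp
            ring
          rw [this, abs_neg, abs_of_pos (by positivity)]
        have ha1 : ‖a‖ = 1 := hN1 _
        have h3 : inner ℝ a (w x) = inner ℝ (a - b) (w x) := by
          rw [inner_sub_left, hor, sub_zero]
        have h4 : ‖w x‖ = |inner ℝ a (w x)| := by
          conv_lhs => rw [h0]
          rw [norm_smul, ha1, mul_one, Real.norm_eq_abs]
        have h5 : |inner ℝ a (w x)| ≤ ‖a - b‖ * ‖w x‖ := by
          rw [h3]
          exact abs_real_inner_le_norm _ _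
        have h6 : 0 < ‖w x‖ := norm_pos_iff.2 hwx
        rw [← h4] at h5
        nlinarith
      · rw [inner_sub_right, inner_smul_right, real_inner_self_eq_norm_sq, hN1]
        ring
  obtain ⟨w, hw, hw2⟩ := hstep (n + 1) le_rfl
  have h1 : T (1 - ((n + 1 : ℕ) : ℝ) / (n + 1)) = 0 := by
    have : (1 : ℝ) - ((n + 1 : ℕ) : ℝ) / (n + 1) = 0 := by
      push_cast
      rw [div_self (by positivity), sub_self]
    rw [this]
    exact Set.projIcc_left (zero_le_one (α := ℝ))
  rw [h1] at hw2
  refine ⟨w, hw, fun x c hc => ?_⟩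
  obtain ⟨hwx, hor⟩ := hw2 x
  rw [hc, inner_smul_right] at hor
  have h2 : inner ℝ (N (0, x)) (F (0, x)) ≠ 0 := by
    show inner ℝ (‖F (0, x)‖⁻¹ • F (0, x)) (F (0, x)) ≠ 0
    rw [real_inner_smul_left, real_inner_self_eq_norm_sq]
    have := norm_ne_zero_iff.2 (hne (0, x))
    positivity
  rcases mul_eq_zero.1 hor with h | h
  · apply hwx
    rw [hc, h, zero_smul]
  · exact h2 h

/-- Difference quotients with parameters: for a `C¹` map `f` vanishing at the points `a x` there
is a continuous `K` with `t • K (t, x) = f (a x + t • z x)`, `K (0, x) = f'(a x) (z x)`. -/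
theorem exists_quotient {X : Type*} [TopologicalSpace X] {E G : Type*} [NormedAddCommGroup E]
    [NormedSpace ℝ E] [NormedAddCommGroup G] [NormedSpace ℝ G] [CompleteSpace G]
    (f : E → G) (hf : ContDiff ℝ 1 f) (a z : X → E) (ha : Continuous a) (hz : Continuous z)
    (h0 : ∀ x, f (a x) = 0) :
    ∃ K : unitInterval × X → G, Continuous K ∧ (∀ x, K (0, x) = fderiv ℝ f (a x) (z x)) ∧
      ∀ (t : unitInterval) x, (t : ℝ) • K (t, x) = f (a x + (t : ℝ) • z x) := by
  have hdf : Continuous (fderiv ℝ f) := hf.continuous_fderiv one_ne_zero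
  let g : unitInterval × X → ℝ → G := fun p s =>
    fderiv ℝ f (a p.2 + (s * (p.1 : ℝ)) • z p.2) (z p.2)
  refine ⟨fun p => ∫ s in (0 : ℝ)..1, g p s, ?_, ?_, ?_⟩
  · apply intervalIntegral.continuous_parametric_intervalIntegral_of_continuous'
    show Continuous fun q : (unitInterval × X) × ℝ =>
      fderiv ℝ f (a q.1.2 + (q.2 * (q.1.1 : ℝ)) • z q.1.2) (z q.1.2)
    have h1 : Continuous fun q : (unitInterval × X) × ℝ => z q.1.2 := by fun_prop
    have h2 : Continuous fun q : (unitInterval × X) × ℝ =>
        a q.1.2 + (q.2 * (q.1.1 : ℝ)) • z q.1.2 := by fun_prop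
    exact (hdf.comp h2).clm_apply h1
  · intro x
    show ∫ s in (0 : ℝ)..1, fderiv ℝ f (a x + (s * ((0 : unitInterval) : ℝ)) • z x) (z x) = _
    simp
  · intro t x
    show (t : ℝ) • ∫ s in (0 : ℝ)..1, fderiv ℝ f (a x + (s * (t : ℝ)) • z x) (z x) = _
    have hd : ∀ s : ℝ, HasDerivAt (fun s : ℝ => f (a x + (s * (t : ℝ)) • z x))
        ((t : ℝ) • fderiv ℝ f (a x + (s * (t : ℝ)) • z x) (z x)) s := by
      intro s
      have h1 : HasDerivAt (fun s : ℝ => a x + (s * (t : ℝ)) • z x) ((t : ℝ) • z x) s := by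
        have h2 : HasDerivAt (fun s : ℝ => s * (t : ℝ)) (t : ℝ) s := by
          simpa using (hasDerivAt_id s).mul_const (t : ℝ)
        exact (h2.smul_const (z x)).const_add (a x)
      have h3 := ((hf.differentiable one_ne_zero) (a x + (s * (t : ℝ)) • z x)).hasFDerivAt
      have h4 := h3.comp_hasDerivAt s h1
      rwa [map_smul] at h4
    rw [← intervalIntegral.integral_smul]
    have hint := intervalIntegral.integral_eq_sub_of_hasDerivAt (a := (0 : ℝ)) (b := 1)
      (fun s _ => hd s) (by
        apply Continuous.intervalIntegrable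
        have h2 : Continuous fun s : ℝ => a x + (s * (t : ℝ)) • z x := by fun_prop
        exact ((hdf.comp h2).clm_apply continuous_const).const_smul _)
    rw [hint]
    simp [h0 x]

end Q181.WI
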